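import Mathlib

/-!
Unstable sets of fixed points of continuous maps of the line, and homoclinic points.
-/

namespace Pool.Agent.MP_97b1c0_an

open Set Function

/-- The last point of `[a,b]` at which the continuous function `φ` takes the value `v`. -/
lemma exists_last {φ : ℝ → ℝ} (hφ : Continuous φ) {a b v : ℝ}
    (h : ∃ t ∈ Icc a b, φ t = v) :
    ∃ t ∈ Icc a b, φ t = v ∧ ∀ u ∈ Icc a b, φ u = v → u ≤ t := by
  have hc : IsCompact (Icc a b ∩ φ ⁻¹' {v}) :=
    isCompact_Icc.inter_right (isClosed_singleton.preimage hφ)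
  obtain ⟨t0, ht0, hv0⟩ := h
  obtain ⟨t, ht⟩ := hc.exists_isGreatest ⟨t0, ht0, hv0⟩
  exact ⟨t, ht.1.1, ht.1.2, fun u hu hv => ht.2 ⟨hu, hv⟩⟩

lemma exists_first {φ : ℝ → ℝ} (hφ : Continuous φ) {a b v : ℝ}
    (h : ∃ t ∈ Icc a b, φ t = v) :
    ∃ t ∈ Icc a b, φ t = v ∧ ∀ u ∈ Icc a b, φ u = v → t ≤ u := by
  have hc : IsCompact (Icc a b ∩ φ ⁻¹' {v}) :=
    isCompact_Icc.inter_right (isClosed_singleton.preimage hφ)
  obtain ⟨t0, ht0, hv0⟩ := h
  obtain ⟨t, ht⟩ := hc.exists_isLeast ⟨t0, ht0, hv0⟩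
  exact ⟨t, ht.1.1, ht.1.2, fun u hu hv => ht.2 ⟨hu, hv⟩⟩

/-- Intermediate value theorem in the form used below. -/
lemma ivt {φ : ℝ → ℝ} (hφ : Continuous φ) {a b v : ℝ} (hab : a ≤ b)
    (h : v ∈ uIcc (φ a) (φ b)) : ∃ t ∈ Icc a b, φ t = v := by
  have := intermediate_value_uIcc (f := φ) (a := a) (b := b) hφ.continuousOn h
  rwa [uIcc_of_le hab] at this

/-- A point of period three. -/
lemma period_three {φ : ℝ → ℝ} (hφ : Continuous φ) {p x s : ℝ} (h1 : p < x) (h2 : x < s)
    (hp : φ p = p) (hx : φ x = s) (hs : φ s = p) :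
    ∃ y, φ (φ (φ y)) = y ∧ φ y ≠ y := by
  obtain ⟨a, ha, hax, hlast⟩ := exists_last (a := p) (b := x) hφ
    (ivt hφ h1.le (v := x) (by rw [hp, hx, uIcc_of_le (by linarith)]; exact ⟨h1.le, h2.le⟩))
  have hpa : p < a := lt_of_le_of_ne ha.1 (by rintro rfl; rw [hp] at hax; linarith)
  have hax' : a < x := lt_of_le_of_ne ha.2 (by rintro rfl; rw [hx] at hax; linarith)
  have hbig : ∀ t ∈ Icc a x, x ≤ φ t := by
    intro t ht
    by_contra hcon
    push Not at hcon
    obtain ⟨u, hu, huv⟩ := ivt hφ ht.2 (v := x)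
      (by rw [hx, uIcc_of_le (by linarith)]; exact ⟨hcon.le, h2.le⟩)
    have hua := hlast u ⟨by linarith [ht.1, hu.1], hu.2⟩ huv
    have : u = a := le_antisymm hua (by linarith [ht.1, hu.1])
    have hta : t = a := le_antisymm (by rw [← this]; exact hu.1) ht.1
    rw [hta, hax] at hcon
    exact lt_irrefl _ hcon
  obtain ⟨t2, ht2, ht2v⟩ := ivt (hφ.comp hφ) hax'.le (v := x)
    (by simp only [comp_apply]; rw [hax, hx, hs, uIcc_of_ge (by linarith)]
        exact ⟨h1.le, h2.le⟩)
  simp only [comp_apply] at ht2v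
  have h3 : Continuous fun t => φ (φ (φ t)) - t := ((hφ.comp (hφ.comp hφ))).sub continuous_id
  obtain ⟨y, hy, hyv⟩ := ivt h3 ht2.1 (v := 0)
    (by
      rw [ht2v, hx, hax, hx, hs, uIcc_of_le (by linarith [ht2.2])]
      exact ⟨by linarith, by linarith [ht2.2]⟩)
  refine ⟨y, by linarith, fun hyy => ?_⟩
  have h5 := hbig y ⟨hy.1, by linarith [hy.2, ht2.2]⟩
  rw [hyy] at h5
  have hyx : y = x := le_antisymm (by linarith [hy.2, ht2.2]) h5
  rw [hyx, hx] at hyy
  linarith

/-- The unstable set of `q`: the points that are reached from points arbitrarily close to `q`. -/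
def W (G : ℝ → ℝ) (q : ℝ) : Set ℝ := {y | ∀ δ > 0, ∃ x, |x - q| < δ ∧ ∃ m : ℕ, G^[m] x = y}

/-- The right unstable set. -/
def Wp (G : ℝ → ℝ) (q : ℝ) : Set ℝ :=
  {y | ∀ δ > 0, ∃ x, q < x ∧ x < q + δ ∧ ∃ m : ℕ, G^[m] x = y}

/-- The left unstable set. -/
def Wm (G : ℝ → ℝ) (q : ℝ) : Set ℝ :=
  {y | ∀ δ > 0, ∃ x, x < q ∧ q - δ < x ∧ ∃ m : ℕ, G^[m] x = y}

/-- Conjugation by `x ↦ -x`. -/
def neg (G : ℝ → ℝ) : ℝ → ℝ := fun x => -G (-x)

lemma continuous_neg' {G : ℝ → ℝ} (hG : Continuous G) : Continuous (neg G) :=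
  (hG.comp continuous_neg).neg

lemma neg_iterate (G : ℝ → ℝ) (m : ℕ) (x : ℝ) : (neg G)^[m] x = -(G^[m] (-x)) := by
  induction m generalizing x with
  | zero => simp
  | succ m ih => rw [iterate_succ_apply, ih, iterate_succ_apply]; simp [neg]

lemma mem_Wp_neg {G : ℝ → ℝ} {q y : ℝ} (h : y ∈ Wm G q) : -y ∈ Wp (neg G) (-q) := by
  intro δ hδ
  obtain ⟨x, h1, h2, m, hm⟩ := h δ hδ
  exact ⟨-x, by linarith, by linarith, m, by rw [neg_iterate, neg_neg, hm]⟩

lemma mem_W_iff {G : ℝ → ℝ} {q y : ℝ} (hq : G q = q) (hy : y ≠ q) :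
    y ∈ W G q → y ∈ Wp G q ∨ y ∈ Wm G q := by
  intro h
  by_contra hcon
  rw [not_or] at hcon
  obtain ⟨h1, h2⟩ := hcon
  simp only [Wp, Wm, mem_ofPred_eq] at h1 h2
  push Not at h1 h2
  obtain ⟨δ1, hδ1, h1⟩ := h1
  obtain ⟨δ2, hδ2, h2⟩ := h2
  obtain ⟨x, hx, m, hm⟩ := h (min δ1 δ2) (lt_min hδ1 hδ2)
  rw [abs_lt] at hx
  have h3 := min_le_left δ1 δ2
  have h4 := min_le_right δ1 δ2
  rcases lt_trichotomy x q with hlt | heq | hgt
  · exact h2 x hlt (by linarith) m hm
  · rw [heq, iterate_fixed hq] at hm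
    exact hy hm.symm
  · exact h1 x hgt (by linarith) m hm

/-- A homoclinic point on the right which is approached from the right. -/
lemma homoclinic_right {G : ℝ → ℝ} (hG : Continuous G) {p s : ℝ} (hp : G p = p) (hps : p < s)
    (hs : s ∈ Wp G p) {i : ℕ} (hi : G^[i] s = p) :
    ∃ m : ℕ, ∃ y, G^[m] (G^[m] (G^[m] y)) = y ∧ G^[m] y ≠ y := by
  -- choose `δ` so that no iterate of order less than `i` reaches `s`
  have key : ∃ δ > 0, ∀ x, p < x → x < p + δ → ∀ m < i, G^[m] x ≠ s := by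
    have : ∀ᶠ x in nhds p, ∀ m ∈ Finset.range i, G^[m] x < s := by
      rw [Filter.eventually_all_finset]
      intro m _
      have h1 : Continuous (G^[m]) := hG.iterate m
      have h2 : G^[m] p < s := by rw [iterate_fixed hp]; exact hps
      exact h1.continuousAt.eventually_lt continuousAt_const h2
    obtain ⟨δ, hδ, h⟩ := Metric.eventually_nhds_iff.mp this
    refine ⟨δ, hδ, fun x h1 h2 m hm => ?_⟩
    have := h (y := x) (by rw [Real.dist_eq, abs_lt]; constructor <;> linarith) m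
      (Finset.mem_range.mpr hm)
    exact this.ne
  obtain ⟨δ, hδ, hδ'⟩ := key
  obtain ⟨x, h1, h2, m, hm⟩ := hs (min δ (s - p)) (lt_min hδ (by linarith))
  have h3 := min_le_left δ (s - p)
  have h4 := min_le_right δ (s - p)
  have hmi : i ≤ m := by
    by_contra hcon
    push Not at hcon
    exact hδ' x h1 (by linarith) m hcon hm
  refine ⟨m, period_three (hG.iterate m) h1 (by linarith : x < s) (iterate_fixed hp m) hm ?_⟩
  obtain ⟨k, rfl⟩ := Nat.exists_eq_add_of_le hmi
  rw [Nat.add_comm, iterate_add_apply, hi, iterate_fixed hp]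

lemma homoclinic_left {G : ℝ → ℝ} (hG : Continuous G) {p s : ℝ} (hp : G p = p) (hps : s < p)
    (hs : s ∈ Wm G p) {i : ℕ} (hi : G^[i] s = p) :
    ∃ m : ℕ, ∃ y, G^[m] (G^[m] (G^[m] y)) = y ∧ G^[m] y ≠ y := by
  obtain ⟨m, y, h1, h2⟩ := homoclinic_right (continuous_neg' hG) (p := -p) (s := -s)
    (by simp [neg, hp]) (by linarith) (mem_Wp_neg hs) (i := i) (by rw [neg_iterate]; simp [hi])
  refine ⟨m, -y, ?_, ?_⟩
  · simp only [neg_iterate, neg_neg] at h1
    linarith
  · simp only [neg_iterate] at h2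
    intro h
    exact h2 (by linarith)

/-- A homoclinic point on the right: in all cases there is a point of period three for an
iterate. -/
lemma homoclinic_pos {G : ℝ → ℝ} (hG : Continuous G) {p s : ℝ} (hp : G p = p) (hps : p < s)
    (hs : s ∈ W G p) {i : ℕ} (hi : G^[i] s = p) :
    ∃ m : ℕ, ∃ y, G^[m] (G^[m] (G^[m] y)) = y ∧ G^[m] y ≠ y := by
  by_cases hcase : s ∈ Wp G p
  · exact homoclinic_right hG hp hps hcase hi
  have hsm : s ∈ Wm G p := (mem_W_iff hp hps.ne' hs).resolve_left hcase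
  simp only [Wp, mem_ofPred_eq] at hcase
  push Not at hcase
  obtain ⟨ε, hε, hcase⟩ := hcase
  -- continuity at `p`
  have hcont : ∀ᶠ y in nhds p, G y < p + ε :=
    hG.continuousAt.eventually_lt continuousAt_const (by rw [hp]; linarith)
  obtain ⟨ε', hε', hcont⟩ := Metric.eventually_nhds_iff.mp hcont
  -- all points slightly to the left of `p` are in the left unstable set
  have hleft : ∀ w, p - ε' < w → w < p → w ∈ Wm G p := by
    intro w hw1 hw2 δ hδ
    obtain ⟨x, h1, h2, m, hm⟩ := hsm δ hδ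
    -- last time at which the orbit is to the left of `p`
    have hex : ∃ j, j ≤ m ∧ G^[j] x < p ∧ ∀ k, j < k → k ≤ m → p ≤ G^[k] x := by
      classical
      have hne : ((Finset.range (m + 1)).filter (fun j => G^[j] x < p)).Nonempty :=
        ⟨0, by simp [h1]⟩
      refine ⟨((Finset.range (m + 1)).filter (fun j => G^[j] x < p)).max' hne, ?_, ?_, ?_⟩
      · have := Finset.max'_mem _ hne
        simp only [Finset.mem_filter, Finset.mem_range] at this
        omega
      · have := Finset.max'_mem _ hne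
        simp only [Finset.mem_filter, Finset.mem_range] at this
        exact this.2
      · intro k hk hkm
        by_contra hcon
        push Not at hcon
        have := Finset.le_max' ((Finset.range (m + 1)).filter (fun j => G^[j] x < p)) k
          (Finset.mem_filter.mpr ⟨Finset.mem_range.mpr (by omega), hcon⟩)
        omega
    obtain ⟨j, hjm, hj, hk⟩ := hex
    have hjm' : j < m := by
      rcases hjm.lt_or_eq with h | h
      · exact h
      · rw [h, hm] at hj; linarith
    have h3 : p ≤ G^[j + 1] x := hk (j + 1) (by omega) (by omega)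
    have h4 : G^[m - (j + 1)] (G^[j + 1] x) = s := by
      rw [← iterate_add_apply, Nat.sub_add_cancel (by omega)]; exact hm
    have h5 : p < G^[j + 1] x := by
      rcases h3.lt_or_eq with h | h
      · exact h
      · rw [← h, iterate_fixed hp] at h4; linarith
    have h6 : p + ε ≤ G^[j + 1] x := by
      by_contra hcon
      push Not at hcon
      exact hcase _ h5 hcon _ h4
    have h7 : G^[j] x ≤ p - ε' := by
      by_contra hcon
      push Not at hcon
      have := hcont (y := G^[j] x) (by rw [Real.dist_eq, abs_lt]; constructor <;> linarith)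
      rw [iterate_succ_apply'] at h6
      linarith
    obtain ⟨x', hx', hx'v⟩ := ivt (hG.iterate j) h1.le (v := w)
      (by rw [iterate_fixed hp, uIcc_of_le (by linarith)]; exact ⟨by linarith, by linarith⟩)
    refine ⟨x', lt_of_le_of_ne hx'.2 ?_, by linarith [hx'.1], j, hx'v⟩
    rintro rfl
    rw [iterate_fixed hp] at hx'v
    linarith
  obtain ⟨x0, h1, h2, m, hm⟩ := hsm ε' hε'
  exact homoclinic_left hG hp h1 (hleft x0 h2 h1) (i := i + m)
    (by rw [iterate_add_apply, hm, hi])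

/-- A fixed point with a homoclinic point: some iterate has a point of period three. -/
lemma homoclinic {G : ℝ → ℝ} (hG : Continuous G) {p s : ℝ} (hp : G p = p) (hps : s ≠ p)
    (hs : s ∈ W G p) {i : ℕ} (hi : G^[i] s = p) :
    ∃ m : ℕ, ∃ y, G^[m] (G^[m] (G^[m] y)) = y ∧ G^[m] y ≠ y := by
  rcases lt_or_gt_of_ne hps with h | h
  · have hs' : -s ∈ W (neg G) (-p) := by
      intro δ hδ
      obtain ⟨x, hx, m, hm⟩ := hs δ hδ
      refine ⟨-x, ?_, m, by rw [neg_iterate, neg_neg, hm]⟩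
      rw [show -x - -p = -(x - p) by ring, abs_neg]
      exact hx
    obtain ⟨m, y, h1, h2⟩ := homoclinic_pos (continuous_neg' hG) (p := -p) (s := -s)
      (by simp [neg, hp]) (by linarith) hs' (i := i) (by rw [neg_iterate]; simp [hi])
    refine ⟨m, -y, ?_, ?_⟩
    · simp only [neg_iterate, neg_neg] at h1
      linarith
    · simp only [neg_iterate] at h2
      intro h
      exact h2 (by linarith)
  · exact homoclinic_pos hG hp h hs hi

end Pool.Agent.MP_97b1c0_an
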