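import Mathlib
import Pool.Agent.MP_97b1c0_an.Homoclinic

/-!
The main argument: commuting maps of the line, one of which has no homoclinic points.
-/

namespace Pool.Agent.MP_97b1c0_an

open Set Function Filter Topology

lemma W_uIcc {G : ℝ → ℝ} (hG : Continuous G) {q y y' : ℝ} (hq : G q = q) (hy : y ∈ W G q)
    (hy' : y' ∈ uIcc q y) : y' ∈ W G q := by
  intro δ hδ
  obtain ⟨x, hx, m, hm⟩ := hy δ hδ
  have h1 : y' ∈ uIcc (G^[m] q) (G^[m] x) := by rw [iterate_fixed hq, hm]; exact hy'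
  obtain ⟨x', hx', hx'v⟩ := intermediate_value_uIcc (hG.iterate m).continuousOn h1
  exact ⟨x', lt_of_le_of_lt (abs_sub_left_of_mem_uIcc hx') hx, m, hx'v⟩

lemma W_image {f G : ℝ → ℝ} (hf : Continuous f) (hc : ∀ x, f (G x) = G (f x)) {q y : ℝ}
    (hy : y ∈ W G q) : f y ∈ W G (f q) := by
  intro δ' hδ'
  obtain ⟨δ, hδ, h⟩ := Metric.continuous_iff.mp hf q δ' hδ'
  obtain ⟨x, hx, m, hm⟩ := hy δ hδ
  refine ⟨f x, ?_, m, ?_⟩
  · have := h x (by rw [Real.dist_eq]; exact hx)
    rwa [Real.dist_eq] at this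
  · have h2 : Function.Commute f G := hc
    rw [← hm]
    exact ((h2.iterate_right m) x).symm

lemma W_iterate {f G : ℝ → ℝ} (hf : Continuous f) (hc : ∀ x, f (G x) = G (f x)) {q y : ℝ}
    (hy : y ∈ W G q) (n : ℕ) : f^[n] y ∈ W G (f^[n] q) := by
  induction n with
  | zero => exact hy
  | succ n ih => rw [iterate_succ_apply', iterate_succ_apply']; exact W_image hf hc ih

/-- If the orbit of `x'` stays in an interval on which `G` moves points to the left, it leaves the
interval. -/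
lemma leaves {G : ℝ → ℝ} (hG : Continuous G) {x2 p x' : ℝ} (hx' : x' < p)
    (hdec : ∀ u, x2 ≤ u → u < p → G u < u) : ∃ k, G^[k] x' < x2 := by
  by_contra hcon
  push Not at hcon
  have hlt : ∀ k, G^[k] x' < p := by
    intro k
    induction k with
    | zero => exact hx'
    | succ k ih =>
      rw [iterate_succ_apply']
      exact (hdec _ (hcon k) ih).trans ih
  have hanti : Antitone fun k => G^[k] x' := antitone_nat_of_succ_le fun k => by
    rw [iterate_succ_apply']
    exact (hdec _ (hcon k) (hlt k)).le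
  have hbdd : BddBelow (range fun k => G^[k] x') := ⟨x2, by rintro _ ⟨k, rfl⟩; exact hcon k⟩
  have hlim := tendsto_atTop_ciInf hanti hbdd
  set L := ⨅ k, G^[k] x' with hL
  have h1 : x2 ≤ L := le_ciInf hcon
  have h2 : L ≤ x' := ciInf_le hbdd 0
  have h3 : Tendsto (fun k => G^[k + 1] x') atTop (𝓝 (G L)) := by
    have := (hG.tendsto L).comp hlim
    refine this.congr fun k => ?_
    simp only [comp_apply]
    rw [iterate_succ_apply']
  have h4 : Tendsto (fun k => G^[k + 1] x') atTop (𝓝 L) :=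
    hlim.comp (tendsto_add_atTop_nat 1)
  have h5 := tendsto_nhds_unique h3 h4
  have h6 := hdec L h1 (lt_of_le_of_lt h2 hx')
  linarith

/-- An increasing bounded orbit converges to a fixed point. -/
lemma increasing_orbit {f G : ℝ → ℝ} (hf : Continuous f) (hG : Continuous G) {α β p : ℝ}
    (hpos : ∀ x ∈ Ioo α β, x < f x) (hq : ∀ n, G (f^[n] p) = f^[n] p)
    (hin : ∀ n, f^[n] p ∈ Ioo α β) : ∃ x, f x = x ∧ G x = x := by
  have hmono : Monotone fun k => f^[k] p := monotone_nat_of_le_succ fun k => by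
    rw [iterate_succ_apply']
    exact (hpos _ (hin k)).le
  have hbdd : BddAbove (range fun k => f^[k] p) :=
    ⟨β, by rintro _ ⟨k, rfl⟩; exact (hin k).2.le⟩
  have hlim := tendsto_atTop_ciSup hmono hbdd
  refine ⟨⨆ k, f^[k] p, ?_, ?_⟩
  · have h3 : Tendsto (fun k => f^[k + 1] p) atTop (𝓝 (f (⨆ k, f^[k] p))) := by
      have := (hf.tendsto (⨆ k, f^[k] p)).comp hlim
      refine this.congr fun k => ?_
      simp only [comp_apply]
      rw [iterate_succ_apply']
    exact tendsto_nhds_unique h3 (hlim.comp (tendsto_add_atTop_nat 1))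
  · have h3 : Tendsto (fun k => f^[k] p) atTop (𝓝 (G (⨆ k, f^[k] p))) := by
      have := (hG.tendsto (⨆ k, f^[k] p)).comp hlim
      refine this.congr fun k => ?_
      simp only [comp_apply]
      exact hq k
    exact tendsto_nhds_unique h3 hlim

/-- The main argument. -/
theorem core {f g G : ℝ → ℝ} (hf : Continuous f) (hg : Continuous g) (hGg : ∀ x, G x = g (g x))
    (hc : ∀ x, f (g x) = g (f x)) {A B : ℝ} (hr : ∀ x, f x ∈ Icc A B)
    (no3 : ∀ m : ℕ, ∀ y, G^[m] (G^[m] (G^[m] y)) = y → G^[m] y = y)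
    {α β : ℝ} (hαβ : α < β) (fα : f α = α) (fβ : f β = β) (gα : β ≤ g α) (gβ : g β ≤ α)
    (hpos : ∀ x ∈ Ioo α β, x < f x) : ∃ x, x ∈ periodicPts f ∧ G x = x := by
  by_contra hno
  push Not at hno
  have hG : Continuous G := by
    have : G = g ∘ g := funext hGg
    rw [this]; exact hg.comp hg
  have hcG : ∀ x, f (G x) = G (f x) := fun x => by rw [hGg, hGg, hc, hc]
  have hfix : ∀ x, f x = x → G x ≠ x := fun x hx =>
    hno x (mk_mem_periodicPts one_pos (by simpa [IsPeriodicPt, IsFixedPt] using hx))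
  -- the points `z`, `x1`, `y1`, `x2`
  obtain ⟨z, hz, hgz⟩ := ivt (φ := fun x => g x - x) (hg.sub continuous_id) hαβ.le (v := 0)
    (by rw [uIcc_of_ge (by linarith)]; exact ⟨by linarith, by linarith⟩)
  have hgz' : g z = z := by linarith
  have hαz : α < z := lt_of_le_of_ne hz.1 (by rintro rfl; linarith)
  have hzβ : z < β := lt_of_le_of_ne hz.2 (by rintro rfl; linarith)
  obtain ⟨x1, hx1, hgx1⟩ := ivt hg hαz.le (v := β)
    (by rw [hgz', uIcc_of_ge (by linarith)]; exact ⟨by linarith, by linarith⟩)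
  obtain ⟨y1, hy1, hgy1⟩ := ivt hg hzβ.le (v := α)
    (by rw [hgz', uIcc_of_ge (by linarith)]; exact ⟨by linarith, by linarith⟩)
  have hzy1 : z < y1 := lt_of_le_of_ne hy1.1 (by rintro rfl; linarith)
  obtain ⟨x2, hx2, hgx2⟩ := ivt hg hx1.2 (v := y1)
    (by rw [hgz', hgx1, uIcc_of_ge (by linarith)]; exact ⟨by linarith, by linarith [hy1.2]⟩)
  have hx2z : x2 < z := lt_of_le_of_ne hx2.2 (by rintro rfl; linarith)
  have hGx2 : G x2 = α := by rw [hGg, hgx2, hgy1]
  have hαx2 : α < x2 := lt_of_le_of_ne (by linarith [hx1.1, hx2.1]) (by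
    rintro rfl
    exact hfix _ fα hGx2)
  -- the point `p`
  have hGz : G z = z := by rw [hGg, hgz', hgz']
  obtain ⟨p, hp, hGp, hfirst⟩ := exists_first (φ := fun x => G x - x) (a := x2) (b := z) (v := 0)
    (hG.sub continuous_id) ⟨z, ⟨hx2z.le, le_rfl⟩, by simp [hGz]⟩
  have hGp' : G p = p := by linarith
  have hx2p : x2 < p := lt_of_le_of_ne hp.1 (by rintro rfl; linarith)
  have hdec : ∀ u, x2 ≤ u → u < p → G u < u := by
    intro u h1 h2
    by_contra hcon
    push Not at hcon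
    obtain ⟨v, hv, hGv⟩ := ivt (φ := fun x => G x - x) (hG.sub continuous_id) h1 (v := 0)
      (by rw [uIcc_of_le (by linarith)]; exact ⟨by linarith, by linarith⟩)
    have := hfirst v ⟨hv.1, by linarith [hv.2, hp.2]⟩ hGv
    linarith [hv.2]
  have hαW : α ∈ W G p := by
    intro δ hδ
    obtain ⟨k, hk⟩ := leaves hG (x2 := x2) (p := p) (x' := max (p - δ / 2) ((x2 + p) / 2))
      (max_lt (by linarith) (by linarith)) hdec
    have h1 : max (p - δ / 2) ((x2 + p) / 2) < p := max_lt (by linarith) (by linarith)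
    have h2 : p - δ / 2 ≤ max (p - δ / 2) ((x2 + p) / 2) := le_max_left _ _
    obtain ⟨x, hx, hxv⟩ := ivt (hG.iterate k) h1.le (v := x2)
      (by rw [iterate_fixed hGp', uIcc_of_le (by linarith)]; exact ⟨hk.le, hx2p.le⟩)
    refine ⟨x, ?_, k + 1, ?_⟩
    · rw [abs_lt]; constructor <;> linarith [hx.1, hx.2]
    · rw [iterate_succ_apply', hxv, hGx2]
  have hpI : p ∈ Ioo α β := ⟨by linarith, by linarith [hp.2]⟩
  -- the orbit of `p`
  have hGq : ∀ n, G (f^[n] p) = f^[n] p := by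
    intro n
    induction n with
    | zero => exact hGp'
    | succ n ih => rw [iterate_succ_apply', ← hcG, ih]
  have hinj : ∀ i j, i < j → f^[i] p ≠ f^[j] p := by
    intro i j hij heq
    refine hno (f^[i] p) (mk_mem_periodicPts (n := j - i) (by omega) ?_) (hGq i)
    show f^[j - i] (f^[i] p) = f^[i] p
    rw [← iterate_add_apply, Nat.sub_add_cancel hij.le, ← heq]
  -- the orbit leaves `(α,β)`
  have hexit : ∃ n0, Icc α β ⊆ W G (f^[n0] p) := by
    have h1 : ∃ n, f^[n] p ∉ Ioo α β := by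
      by_contra hcon
      push Not at hcon
      obtain ⟨x, h1, h2⟩ := increasing_orbit hf hG hpos hGq hcon
      exact hfix x h1 h2
    classical
    have h2 := Nat.find_spec h1
    have h3 : Nat.find h1 ≠ 0 := by
      intro h0
      rw [h0] at h2
      exact h2 hpI
    obtain ⟨n, hn⟩ := Nat.exists_eq_succ_of_ne_zero h3
    have h4 : f^[n] p ∈ Ioo α β := by
      by_contra hcon
      have := Nat.find_min' h1 hcon
      omega
    rw [hn, Nat.succ_eq_add_one, iterate_succ_apply'] at h2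
    have h5 := hpos _ h4
    have h6 : β ≤ f (f^[n] p) := by
      by_contra hcon
      push Not at hcon
      exact h2 ⟨h4.1.trans h5, hcon⟩
    refine ⟨n + 1, fun y hy => ?_⟩
    have h7 : α ∈ W G (f^[n + 1] p) := by
      have := W_iterate hf hcG hαW (n + 1)
      rwa [iterate_fixed fα] at this
    refine W_uIcc hG (hGq _) h7 ?_
    rw [iterate_succ_apply', uIcc_of_ge (by linarith)]
    exact ⟨hy.1, hy.2.trans h6⟩
  obtain ⟨n0, hn0⟩ := hexit
  have hα : ∀ m, n0 ≤ m → α ∈ W G (f^[m] p) := by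
    intro m hm
    have := W_iterate hf hcG (hn0 ⟨le_rfl, hαβ.le⟩) (m - n0)
    rwa [iterate_fixed fα, ← iterate_add_apply, Nat.sub_add_cancel hm] at this
  have hβ : ∀ m, n0 ≤ m → β ∈ W G (f^[m] p) := by
    intro m hm
    have := W_iterate hf hcG (hn0 ⟨hαβ.le, le_rfl⟩) (m - n0)
    rwa [iterate_fixed fβ, ← iterate_add_apply, Nat.sub_add_cancel hm] at this
  have hIcc : ∀ a b m, a ∈ W G (f^[m] p) → b ∈ W G (f^[m] p) → Icc a b ⊆ W G (f^[m] p) := by
    intro a b m ha hb y hy
    rcases le_total (f^[m] p) y with h | h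
    · exact W_uIcc hG (hGq m) hb (by rw [uIcc_of_le (by linarith [hy.2])]; exact ⟨h, hy.2⟩)
    · exact W_uIcc hG (hGq m) ha (by rw [uIcc_of_ge (by linarith [hy.1])]; exact ⟨hy.1, h⟩)
  have hqW : ∀ j m, j + n0 ≤ m → f^[j] p ∈ W G (f^[m] p) := by
    intro j m hm
    have h1 := hIcc α β (m - j) (hα _ (by omega)) (hβ _ (by omega)) ⟨hpI.1.le, hpI.2.le⟩
    have h2 := W_iterate hf hcG h1 j
    rwa [← iterate_add_apply, Nat.add_sub_cancel' (by omega)] at h2
  -- no accumulation point inside the hull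
  have hacc : ∀ (ψ : ℕ → ℕ), StrictMono ψ → ∀ x, Tendsto (fun k => f^[ψ k] p) atTop (𝓝 x) →
      ∀ a b, (∃ M, ∀ m, M ≤ m → a ∈ W G (f^[m] p)) → (∃ M, ∀ m, M ≤ m → b ∈ W G (f^[m] p)) →
      a < x → b ≤ x := by
    rintro ψ hψ x hx a b ⟨Ma, hMa⟩ ⟨Mb, hMb⟩ hax
    by_contra hxb
    push Not at hxb
    have h1 : ∀ᶠ k in atTop, f^[ψ k] p ∈ Ioo a b := hx.eventually (Ioo_mem_nhds hax hxb)
    obtain ⟨K, hK⟩ := eventually_atTop.mp h1
    set k := max K (max Ma Mb) with hk
    have hkK : K ≤ k := le_max_left _ _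
    have hkψ : k ≤ ψ k := hψ.id_le k
    have hka : Ma ≤ k := (le_max_left _ _).trans (le_max_right _ _)
    have hkb : Mb ≤ k := (le_max_right _ _).trans (le_max_right _ _)
    have hψ1 : ψ k < ψ (k + 1) := hψ (Nat.lt_succ_self k)
    have hi := hK k hkK
    have hj := hK (k + 1) (by omega)
    have hne := hinj _ _ hψ1
    have hsub1 := hIcc a b (ψ k) (hMa _ (by omega)) (hMb _ (by omega))
    have hsub2 := hIcc a b (ψ (k + 1)) (hMa _ (by omega)) (hMb _ (by omega))
    set qi := f^[ψ k] p with hqi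
    set qj := f^[ψ (k + 1)] p with hqj
    have hδ : 0 < min (min (qi - a) (b - qi)) |qj - qi| :=
      lt_min (lt_min (by linarith [hi.1]) (by linarith [hi.2])) (abs_pos.mpr (sub_ne_zero.mpr hne.symm))
    obtain ⟨s, hs, m, hm⟩ := hsub1 ⟨hj.1.le, hj.2.le⟩ _ hδ
    rw [lt_min_iff, lt_min_iff, abs_lt, abs_lt] at hs
    have hsW : s ∈ W G qj := hsub2 ⟨by linarith [hs.1.1.1], by linarith [hs.1.2.2]⟩
    have hsne : s ≠ qj := by
      rintro rfl
      exact lt_irrefl _ hs.2
    obtain ⟨M, y, h3, h4⟩ := homoclinic hG (hGq (ψ (k + 1))) hsne hsW hm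
    exact h4 (no3 M y h3)
  -- a convergent subsequence
  obtain ⟨x, -, φ, hφ, hx⟩ := isCompact_Icc.tendsto_subseq
    (x := fun n => f^[n + 1] p) (s := Icc A B)
    (fun n => by simp only [iterate_succ_apply']; exact hr _)
  have hlim : ∀ i : ℕ, Tendsto (fun k => f^[φ k + 1 + i] p) atTop (𝓝 (f^[i] x)) := by
    intro i
    have := ((hf.iterate i).tendsto x).comp hx
    refine this.congr fun k => ?_
    simp only [comp_apply]
    rw [← iterate_add_apply, Nat.add_comm]
  have hmonoφ : ∀ i : ℕ, StrictMono fun k => φ k + 1 + i := fun i a b hab => by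
    have := hφ hab
    simp only
    omega
  have hGx : ∀ i : ℕ, G (f^[i] x) = f^[i] x := by
    intro i
    have h1 := (hG.tendsto (f^[i] x)).comp (hlim i)
    have h2 : Tendsto (fun k => f^[φ k + 1 + i] p) atTop (𝓝 (G (f^[i] x))) := by
      refine h1.congr fun k => ?_
      simp only [comp_apply]
      exact hGq _
    exact tendsto_nhds_unique h2 (hlim i)
  have hEv : ∀ j, ∃ M, ∀ m, M ≤ m → f^[j] p ∈ W G (f^[m] p) := fun j => ⟨j + n0, hqW j⟩
  -- every limit point is an upper or a lower bound of the orbit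
  have htype : ∀ i : ℕ, (∀ j, f^[j] p ≤ f^[i] x) ∨ (∀ j, f^[i] x ≤ f^[j] p) := by
    intro i
    by_contra hcon
    push Not at hcon
    obtain ⟨⟨j1, h1⟩, ⟨j2, h2⟩⟩ := hcon
    have := hacc _ (hmonoφ i) _ (hlim i) _ _ (hEv j2) (hEv j1) h2
    linarith
  have hup : ∀ i i' : ℕ, (∀ j, f^[j] p ≤ f^[i] x) → (∀ j, f^[j] p ≤ f^[i'] x) →
      f^[i] x = f^[i'] x := by
    intro i i' h1 h2
    apply le_antisymm
    · exact le_of_tendsto' (hlim i) fun k => h2 _
    · exact le_of_tendsto' (hlim i') fun k => h1 _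
  have hdown : ∀ i i' : ℕ, (∀ j, f^[i] x ≤ f^[j] p) → (∀ j, f^[i'] x ≤ f^[j] p) →
      f^[i] x = f^[i'] x := by
    intro i i' h1 h2
    apply le_antisymm
    · exact ge_of_tendsto' (hlim i') fun k => h1 _
    · exact ge_of_tendsto' (hlim i) fun k => h2 _
  have hdist : ∀ i i' : ℕ, i < i' → f^[i] x ≠ f^[i'] x := by
    intro i i' hii heq
    refine hno (f^[i] x) (mk_mem_periodicPts (n := i' - i) (by omega) ?_) (hGx i)
    show f^[i' - i] (f^[i] x) = f^[i] x
    rw [← iterate_add_apply, Nat.sub_add_cancel hii.le, ← heq]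
  rcases htype 0 with h0 | h0 <;> rcases htype 1 with h1 | h1 <;> rcases htype 2 with h2 | h2
  · exact hdist 0 1 (by omega) (hup 0 1 h0 h1)
  · exact hdist 0 1 (by omega) (hup 0 1 h0 h1)
  · exact hdist 0 2 (by omega) (hup 0 2 h0 h2)
  · exact hdist 1 2 (by omega) (hdown 1 2 h1 h2)
  · exact hdist 1 2 (by omega) (hup 1 2 h1 h2)
  · exact hdist 0 2 (by omega) (hdown 0 2 h0 h2)
  · exact hdist 0 1 (by omega) (hdown 0 1 h0 h1)
  · exact hdist 0 1 (by omega) (hdown 0 1 h0 h1)

end Pool.Agent.MP_97b1c0_an
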