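import Pool.Agent.MP_97b1c0_an.SmoothPieces

set_option autoImplicit false

namespace Pool.Agent.MP_97b1c0_an

open Set Filter Topology Function unitInterval

/-- A self-map of the square is triangular if its first output coordinate depends only on the
first input coordinate. -/
def Triangular (F : I × I → I × I) : Prop :=
  ∀ p q : I × I, p.1 = q.1 → (F p).1 = (F q).1

/-- The base map of a triangular map. -/
def base (F : I × I → I × I) (x : I) : I := (F (x, 0)).1

/-- The fibre map over the point `x`. -/
def fibre (F : I × I → I × I) (x : I) (y : I) : I := (F (x, y)).2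

lemma continuous_base {F : I × I → I × I} (hF : Continuous F) : Continuous (base F) := by
  unfold base; fun_prop

lemma continuous_fibre {F : I × I → I × I} (hF : Continuous F) (x : I) :
    Continuous (fibre F x) := by
  unfold fibre; fun_prop

lemma Triangular.apply {F : I × I → I × I} (h : Triangular F) (x y : I) :
    F (x, y) = (base F x, fibre F x y) :=
  Prod.ext (h (x, y) (x, 0) rfl) rfl

lemma Triangular.iterate_fst {F : I × I → I × I} (h : Triangular F) (n : ℕ) (z : I × I) :
    (F^[n] z).1 = (base F)^[n] z.1 := by
  induction n with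
  | zero => rfl
  | succ n ih =>
    rw [Function.iterate_succ_apply', Function.iterate_succ_apply', ← ih]
    exact h _ _ rfl

lemma Triangular.commute_base {F G : I × I → I × I} (hF : Triangular F) (hG : Triangular G)
    (hc : F ∘ G = G ∘ F) : Function.Commute (base F) (base G) := by
  intro x
  have h := congrFun hc (x, 0)
  have h1 : (F (G (x, 0))).1 = (G (F (x, 0))).1 := congrArg Prod.fst h
  rw [hG.apply, hF.apply, hF.apply, hG.apply] at h1
  exact h1

/-- The map induced by the `p`-th iterate on the fibre over `x`. -/
def ret (F : I × I → I × I) (p : ℕ) (x : I) (y : I) : I := (F^[p] (x, y)).2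

lemma continuous_ret {F : I × I → I × I} (hF : Continuous F) (p : ℕ) (x : I) :
    Continuous (ret F p x) := by
  unfold ret
  exact continuous_snd.comp ((hF.iterate p).comp (by fun_prop))

lemma iterate_eq {F : I × I → I × I} (h : Triangular F) {p : ℕ} {x : I}
    (hx : (base F)^[p] x = x) (y : I) : F^[p] (x, y) = (x, ret F p x y) :=
  Prod.ext ((h.iterate_fst p (x, y)).trans hx) rfl

lemma iterate_mul_eq {F : I × I → I × I} (h : Triangular F) {p : ℕ} {x : I}
    (hx : (base F)^[p] x = x) (m : ℕ) (y : I) :
    F^[p * m] (x, y) = (x, (ret F p x)^[m] y) := by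
  rw [Function.iterate_mul]
  induction m with
  | zero => rfl
  | succ m ih =>
    rw [Function.iterate_succ_apply', ih, iterate_eq h hx, Function.iterate_succ_apply']

lemma commute_ret {F G : I × I → I × I} (hF : Triangular F) (hG : Triangular G)
    (hc : F ∘ G = G ∘ F) {p q : ℕ} {x : I} (hp : (base F)^[p] x = x)
    (hq : (base G)^[q] x = x) : Function.Commute (ret F p x) (ret G q x) := by
  have hc' : Function.Commute F G := fun z => congrFun hc z
  have hcc : Function.Commute (F^[p]) (G^[q]) := hc'.iterate_iterate p q
  intro y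
  have h := hcc (x, y)
  rw [iterate_eq hG hq, iterate_eq hF hp, iterate_eq hF hp, iterate_eq hG hq] at h
  exact (Prod.mk.inj h).2

/-- The fibre reduction: if the base maps have a common periodic point `x` and the return maps
on the fibre over `x` have a common periodic point, then so do the triangular maps. -/
lemma fibre_reduction {F G : I × I → I × I} (hF : Triangular F) (hG : Triangular G)
    {p q : ℕ} {x : I} (hp0 : 0 < p) (hq0 : 0 < q) (hp : (base F)^[p] x = x)
    (hq : (base G)^[q] x = x)
    (h : (periodicPts (ret F p x) ∩ periodicPts (ret G q x)).Nonempty) :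
    (periodicPts F ∩ periodicPts G).Nonempty := by
  obtain ⟨y, ⟨m, hm, hym⟩, n, hn, hyn⟩ := h
  refine ⟨(x, y), ⟨p * m, Nat.mul_pos hp0 hm, ?_⟩, ⟨q * n, Nat.mul_pos hq0 hn, ?_⟩⟩
  · have := iterate_mul_eq hF hp m y
    rw [show (ret F p x)^[m] y = y from hym] at this
    exact this
  · have := iterate_mul_eq hG hq n y
    rw [show (ret G q x)^[n] y = y from hyn] at this
    exact this

lemma ret_succ {F : I × I → I × I} (h : Triangular F) (i : ℕ) (x : I) :
    ret F (i + 1) x = fibre F ((base F)^[i] x) ∘ ret F i x := by
  funext y
  show (F^[i + 1] (x, y)).2 = _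
  rw [Function.iterate_succ_apply']
  have : F^[i] (x, y) = ((base F)^[i] x, ret F i x y) :=
    Prod.ext (h.iterate_fst i (x, y)) rfl
  rw [this]
  rfl

lemma ret_pred {P : (I → I) → I → Prop} (hid : ∀ x, P id x)
    (hcomp : ∀ (u v : I → I) (x : I), Continuous u → P u x → P v (u x) → P (v ∘ u) x)
    {F : I × I → I × I} (hFc : Continuous F) (h : Triangular F) (x y : I)
    (p : ℕ) (hy : ∀ i < p, P (fibre F ((base F)^[i] x)) (ret F i x y)) :
    P (ret F p x) y := by
  induction p with
  | zero => exact hid y
  | succ p ih =>
    rw [ret_succ h]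
    exact hcomp _ _ _ (continuous_ret hFc p x) (ih fun i hi => hy i (Nat.lt_succ_of_lt hi))
      (hy p (Nat.lt_succ_self p))

/-- If all fibre maps of `F` have a local property closed under compositions at all but countably
many points, then the return map to a periodic fibre has this property at all but countably many
of its fixed points. -/
lemma countable_bad {P : (I → I) → I → Prop} (hid : ∀ x, P id x)
    (hcomp : ∀ (u v : I → I) (x : I), Continuous u → P u x → P v (u x) → P (v ∘ u) x)
    {F : I × I → I × I} (hFc : Continuous F) (h : Triangular F)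
    (hfib : ∀ x, {y | ¬ P (fibre F x) y}.Countable) {p : ℕ}
    {x : I} (hp : (base F)^[p] x = x) :
    {y | ret F p x y = y ∧ ¬ P (ret F p x) y}.Countable := by
  have hsub : {y | ret F p x y = y ∧ ¬ P (ret F p x) y} ⊆
      ⋃ i : Fin p, {y | ret F p x y = y} ∩ (ret F i x) ⁻¹' {z |
        ¬ P (fibre F ((base F)^[i] x)) z} := by
    rintro y ⟨hy, hbad⟩
    have : ∃ i < p, ¬ P (fibre F ((base F)^[i] x)) (ret F i x y) := by
      by_contra hcon
      push Not at hcon
      exact hbad (ret_pred hid hcomp hFc h x y p hcon)
    obtain ⟨i, hi, hbi⟩ := this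
    exact mem_iUnion.2 ⟨⟨i, hi⟩, hy, hbi⟩
  refine (countable_iUnion fun i => ?_).mono hsub
  have hinj : InjOn (ret F i x) {y | ret F p x y = y} := by
    intro y hy z hz hyz
    have hp' : ∀ w, F^[p] (x, w) = F^[p - i] (F^[i] (x, w)) := by
      intro w
      rw [← Function.iterate_add_apply]
      congr 2
      have := i.2
      omega
    have h3 : ∀ w, F^[i] (x, w) = ((base F)^[i] x, ret F i x w) := fun w =>
      Prod.ext (h.iterate_fst i (x, w)) rfl
    have h4 : F^[p] (x, y) = F^[p] (x, z) := by
      rw [hp', hp', h3, h3, hyz]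
    rw [iterate_eq h hp, iterate_eq h hp] at h4
    have h5 := (Prod.mk.inj h4).2
    have hy' : ret F p x y = y := hy
    have hz' : ret F p x z = z := hz
    rwa [hy', hz'] at h5
  exact Set.MapsTo.countable_of_injOn (f := ret F i x)
    (t := {z | ¬ P (fibre F ((base F)^[i] x)) z})
    (fun y hy => hy.2) (hinj.mono inter_subset_left) (hfib _)

end Pool.Agent.MP_97b1c0_an
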