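import Mathlib
import Pool.Agent.MP_97b1c0_an.Core

/-!
The interval theorem: two commuting continuous maps, one of which has only periods that are powers
of two, have a common periodic point.
-/

namespace Pool.Agent.MP_97b1c0_an

open Set Function Filter Topology

lemma no_period_three {g G : ℝ → ℝ} (hGg : ∀ x, G x = g (g x))
    (hper : ∀ x ∈ periodicPts g, ∃ k : ℕ, minimalPeriod g x = 2 ^ k) (m : ℕ) (y : ℝ)
    (h : G^[m] (G^[m] (G^[m] y)) = y) : G^[m] y = y := by
  have hG : ∀ n, G^[n] = g^[2 * n] := by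
    intro n
    have : G = g^[2] := funext fun x => by rw [hGg]; rfl
    rw [this, ← iterate_mul]
  rw [hG, ← iterate_add_apply, ← iterate_add_apply, Nat.add_assoc] at h
  rcases Nat.eq_zero_or_pos m with rfl | hm
  · rfl
  have hy : y ∈ periodicPts g := mk_mem_periodicPts (n := 2 * m + (2 * m + 2 * m)) (by omega) h
  obtain ⟨k, hk⟩ := hper y hy
  have h1 : minimalPeriod g y ∣ 2 * m + (2 * m + 2 * m) := IsPeriodicPt.minimalPeriod_dvd h
  rw [hk] at h1
  have h2 : 2 ^ k ∣ 2 * m := by
    have h3 : 2 ^ k ∣ 3 * (2 * m) := by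
      have : 3 * (2 * m) = 2 * m + (2 * m + 2 * m) := by ring
      rw [this]; exact h1
    exact (Nat.Coprime.dvd_of_dvd_mul_left (Nat.Coprime.pow_left k (by norm_num)) h3)
  rw [← hk] at h2
  rw [hG]
  exact (isPeriodicPt_iff_minimalPeriod_dvd.mpr h2)

lemma mem_periodicPts_neg {f : ℝ → ℝ} {x : ℝ} (h : x ∈ periodicPts (neg f)) :
    -x ∈ periodicPts f := by
  obtain ⟨n, hn, hx⟩ := h
  refine ⟨n, hn, ?_⟩
  have h1 : (neg f)^[n] x = x := hx
  rw [neg_iterate] at h1
  show f^[n] (-x) = -x
  linarith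

/-- Commuting maps of an interval, one of which has only periods that are powers of two. -/
theorem interval_real {f g : ℝ → ℝ} (hf : Continuous f) (hg : Continuous g)
    (hc : ∀ x, f (g x) = g (f x)) {A B : ℝ} (hr : ∀ x, f x ∈ Icc A B)
    (hper : ∀ x ∈ periodicPts g, ∃ k : ℕ, minimalPeriod g x = 2 ^ k) :
    ∃ x, x ∈ periodicPts f ∧ x ∈ periodicPts g := by
  by_contra hno
  push Not at hno
  have hAB : A ≤ B := (hr 0).1.trans (hr 0).2
  have hfix : ∀ x, f x = x → g x ≠ x := fun x hx hgx =>
    hno x (mk_mem_periodicPts one_pos (by simpa [IsPeriodicPt, IsFixedPt] using hx))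
      (mk_mem_periodicPts one_pos (by simpa [IsPeriodicPt, IsFixedPt] using hgx))
  -- the set of fixed points of `f`
  have hΦA : ∀ x, f x = x → x ∈ Icc A B := fun x hx => by rw [← hx]; exact hr x
  have hcl : IsClosed {x | f x = x} := isClosed_eq hf continuous_id
  have hgΦ : ∀ x, f x = x → f (g x) = g x := fun x hx => by rw [hc, hx]
  have hne : ∃ x, f x = x := by
    obtain ⟨x, -, hx⟩ := ivt (φ := fun x => f x - x) (hf.sub continuous_id) hAB (v := 0)
      (by rw [uIcc_of_ge (by linarith [(hr A).1, (hr B).2])]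
          exact ⟨by linarith [(hr B).2], by linarith [(hr A).1]⟩)
    exact ⟨x, by linarith⟩
  have hcK : IsCompact {x | f x = x} := by
    refine isCompact_Icc.of_isClosed_subset hcl (s := Icc A B) ?_
    intro x hx
    exact hΦA x hx
  -- least fixed point
  obtain ⟨μ, hμ, hμle⟩ := hcK.exists_isLeast hne
  obtain ⟨ν, hν, hνle⟩ := hcK.exists_isGreatest hne
  have hgμ : μ < g μ := lt_of_le_of_ne (hμle (hgΦ μ hμ)) (hfix μ hμ).symm
  have hgν : g ν < ν := lt_of_le_of_ne (hνle (hgΦ ν hν)) (hfix ν hν)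
  -- `β` : the least fixed point of `f` moved to the left
  obtain ⟨β, hβ, hβle⟩ := (hcK.inter_right (isClosed_le hg continuous_id)).exists_isLeast
    ⟨ν, hν, hgν.le⟩
  have hβf : f β = β := hβ.1
  have hβg : g β < β := lt_of_le_of_ne hβ.2 (hfix β hβf)
  have hμβ : μ < β := lt_of_le_of_ne (hμle hβf) (by rintro rfl; linarith)
  obtain ⟨α, hα, hαge⟩ := ((hcK.inter_right (isClosed_le continuous_id hg)).inter_right
    (isClosed_Iic (a := β))).exists_isGreatest ⟨μ, ⟨hμ, hgμ.le⟩, hμβ.le⟩
  have hαf : f α = α := hα.1.1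
  have hαg : α < g α := lt_of_le_of_ne hα.1.2 (hfix α hαf).symm
  have hαβ : α < β := lt_of_le_of_ne hα.2 (by rintro rfl; linarith)
  have hgap : ∀ x ∈ Ioo α β, f x ≠ x := by
    intro x hx hfx
    rcases lt_or_gt_of_ne (hfix x hfx) with h | h
    · exact absurd (hβle ⟨hfx, h.le⟩) (not_le.mpr hx.2)
    · exact absurd (hαge ⟨⟨hfx, h.le⟩, hx.2.le⟩) (not_le.mpr hx.1)
  have gα : β ≤ g α := by
    by_contra hcon
    push Not at hcon
    exact hgap _ ⟨hαg, hcon⟩ (hgΦ α hαf)
  have gβ : g β ≤ α := by
    by_contra hcon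
    push Not at hcon
    exact hgap _ ⟨hcon, hβg⟩ (hgΦ β hβf)
  -- sign of `f x - x`
  have hsign : (∀ x ∈ Ioo α β, x < f x) ∨ (∀ x ∈ Ioo α β, f x < x) := by
    by_contra hcon
    push Not at hcon
    obtain ⟨⟨x, hx, hfx⟩, ⟨y, hy, hfy⟩⟩ := hcon
    have h1 : (0 : ℝ) ∈ (fun t => f t - t) '' uIcc x y := by
      refine intermediate_value_uIcc (hf.sub continuous_id).continuousOn ?_
      rw [uIcc_of_le (by simp only [Pi.sub_apply, id]; linarith)]
      exact ⟨by simp only [Pi.sub_apply, id]; linarith, by simp only [Pi.sub_apply, id]; linarith⟩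
    obtain ⟨t, ht, hft⟩ := h1
    have ht' : t ∈ Ioo α β := by
      rw [mem_uIcc] at ht
      rcases ht with ht | ht
      · exact ⟨by linarith [hx.1, ht.1], by linarith [hy.2, ht.2]⟩
      · exact ⟨by linarith [hy.1, ht.1], by linarith [hx.2, ht.2]⟩
    exact hgap t ht' (by simp only at hft; linarith)
  have key : ∃ x, x ∈ periodicPts f ∧ g (g x) = x := by
    rcases hsign with hs | hs
    · obtain ⟨x, h1, h2⟩ := core (G := fun x => g (g x)) hf hg (fun _ => rfl) hc hr
        (fun m y h => no_period_three (g := g) (fun _ => rfl) hper m y h) hαβ hαf hβf gα gβ hs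
      exact ⟨x, h1, h2⟩
    · have hcn : ∀ x, neg f (neg g x) = neg g (neg f x) := fun x => by simp [neg, hc]
      obtain ⟨x, h1, h2⟩ := core (f := neg f) (g := neg g)
        (G := neg (fun x => g (g x))) (continuous_neg' hf) (continuous_neg' hg)
        (fun x => by simp [neg]) hcn (A := -B) (B := -A)
        (fun x => by
          have := hr (-x)
          exact ⟨by simp only [neg]; linarith [this.2], by simp only [neg]; linarith [this.1]⟩)
        (by
          intro m y h
          have h5 := no_period_three (g := g) (G := fun x => g (g x)) (fun _ => rfl) hper m (-y)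
            (by simp only [neg_iterate, neg_neg] at h; linarith)
          rw [neg_iterate]; linarith)
        (α := -β) (β := -α) (by linarith) (by simp [neg, hβf]) (by simp [neg, hαf])
        (by simp only [neg, neg_neg]; linarith) (by simp only [neg, neg_neg]; linarith)
        (by
          intro x hx
          have := hs (-x) ⟨by linarith [hx.2], by linarith [hx.1]⟩
          simp only [neg]; linarith)
      refine ⟨-x, mem_periodicPts_neg h1, ?_⟩
      simp only [neg] at h2
      linarith
  obtain ⟨x, h1, h2⟩ := key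
  exact hno x h1 (mk_mem_periodicPts (n := 2) (by norm_num) h2)

/-- The same statement on the unit interval. -/
theorem interval_unit {f g : unitInterval → unitInterval} (hf : Continuous f) (hg : Continuous g)
    (hc : f ∘ g = g ∘ f)
    (hper : ∀ x ∈ periodicPts g, ∃ k : ℕ, minimalPeriod g x = 2 ^ k) :
    (periodicPts f ∩ periodicPts g).Nonempty := by
  set pr : ℝ → unitInterval := fun x => projIcc 0 1 zero_le_one x with hpr
  have hpr' : ∀ x : unitInterval, pr x = x := fun x => projIcc_val zero_le_one x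
  have hprc : Continuous pr := continuous_projIcc
  have hlift : ∀ (φ : unitInterval → unitInterval) (n : ℕ) (x : unitInterval),
      (fun t : ℝ => ((φ (pr t) : unitInterval) : ℝ))^[n] x = (φ^[n] x : unitInterval) := by
    intro φ n x
    induction n generalizing x with
    | zero => rfl
    | succ n ih =>
      rw [iterate_succ_apply, iterate_succ_apply, hpr']
      exact ih _
  have hpts : ∀ (φ : unitInterval → unitInterval) (n : ℕ) (x : unitInterval),
      IsPeriodicPt (fun t : ℝ => ((φ (pr t) : unitInterval) : ℝ)) n x ↔ IsPeriodicPt φ n x := by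
    intro φ n x
    show _ = _ ↔ _ = _
    rw [hlift]
    exact ⟨fun h => Subtype.ext h, fun h => congrArg Subtype.val h⟩
  have hmem : ∀ (φ : unitInterval → unitInterval) (t : ℝ) (n : ℕ), 0 < n →
      IsPeriodicPt (fun t : ℝ => ((φ (pr t) : unitInterval) : ℝ)) n t →
      ∃ x : unitInterval, (x : ℝ) = t := by
    intro φ t n hn h
    obtain ⟨k, rfl⟩ := Nat.exists_eq_succ_of_ne_zero hn.ne'
    have h1 : (fun t : ℝ => ((φ (pr t) : unitInterval) : ℝ))^[k.succ] t = t := h
    rw [iterate_succ_apply'] at h1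
    exact ⟨_, h1⟩
  obtain ⟨t, ⟨n, hn, htn⟩, ⟨m, hm, htm⟩⟩ := interval_real
    (f := fun t : ℝ => ((f (pr t) : unitInterval) : ℝ))
    (g := fun t : ℝ => ((g (pr t) : unitInterval) : ℝ))
    (continuous_subtype_val.comp (hf.comp hprc)) (continuous_subtype_val.comp (hg.comp hprc))
    (by
      intro t
      simp only [hpr']
      exact congrArg Subtype.val (congrFun hc (pr t)))
    (A := 0) (B := 1) (fun t => (f (pr t)).2)
    (by
      rintro t ⟨n, hn, h⟩
      obtain ⟨x, rfl⟩ := hmem g t n hn h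
      obtain ⟨k, hk⟩ := hper x ⟨n, hn, (hpts g n x).mp h⟩
      refine ⟨k, ?_⟩
      rw [← hk]
      apply minimalPeriod_eq_minimalPeriod_iff.mpr
      exact fun n => hpts g n x)
  obtain ⟨x, rfl⟩ := hmem f t n hn htn
  exact ⟨x, ⟨n, hn, (hpts f n x).mp htn⟩, ⟨m, hm, (hpts g m x).mp htm⟩⟩

end Pool.Agent.MP_97b1c0_an
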