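import Mathlib

set_option autoImplicit false

namespace Pool.Agent.MP_97b1c0_an

open Set Filter Topology Function unitInterval

/-- A function is locally monotone at a point if it is weakly monotone or weakly antitone on some
neighbourhood of that point. -/
def LocMono (u : I → I) (x : I) : Prop :=
  ∃ U ∈ 𝓝 x, MonotoneOn u U ∨ AntitoneOn u U

lemma LocMono.comp {u v : I → I} {x : I} (hu : LocMono u x) (hc : Continuous u)
    (hv : LocMono v (u x)) : LocMono (v ∘ u) x := by
  obtain ⟨U, hU, hUm⟩ := hu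
  obtain ⟨V, hV, hVm⟩ := hv
  refine ⟨U ∩ u ⁻¹' V, inter_mem hU (hc.continuousAt.preimage_mem_nhds hV), ?_⟩
  rcases hUm with hUm | hUm <;> rcases hVm with hVm | hVm
  · left; intro a ha b hb hab
    exact hVm ha.2 hb.2 (hUm ha.1 hb.1 hab)
  · right; intro a ha b hb hab
    exact hVm ha.2 hb.2 (hUm ha.1 hb.1 hab)
  · right; intro a ha b hb hab
    exact hVm hb.2 ha.2 (hUm ha.1 hb.1 hab)
  · left; intro a ha b hb hab
    exact hVm hb.2 ha.2 (hUm ha.1 hb.1 hab)

/-- Intermediate values: a continuous self-map moving one point of an interval to the right and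
another one to the left has a fixed point in between. -/
lemma fix_between {u : I → I} (hu : Continuous u) {a b : I} (hab : a ≤ b)
    (ha : a ≤ u a) (hb : u b ≤ b) : ∃ t ∈ Icc a b, u t = t := by
  have hcl : IsClosed {t : I | t ≤ u t} := isClosed_le continuous_id hu
  have hcl' : IsClosed {t : I | u t ≤ t} := isClosed_le hu continuous_id
  have hpre : IsPreconnected (Icc a b) := isPreconnected_Icc
  have := isPreconnected_closed_iff.1 hpre {t : I | t ≤ u t} {t : I | u t ≤ t} hcl hcl'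
    (fun t _ => le_total t (u t)) ⟨a, ⟨le_rfl, hab⟩, ha⟩ ⟨b, ⟨hab, le_rfl⟩, hb⟩
  obtain ⟨t, ht, h1, h2⟩ := this
  exact ⟨t, ht, le_antisymm h2 h1⟩

lemma fix_between' {u : I → I} (hu : Continuous u) {a b : I} (hab : a ≤ b)
    (ha : u a ≤ a) (hb : b ≤ u b) : ∃ t ∈ Icc a b, u t = t := by
  have hcl : IsClosed {t : I | t ≤ u t} := isClosed_le continuous_id hu
  have hcl' : IsClosed {t : I | u t ≤ t} := isClosed_le hu continuous_id
  have hpre : IsPreconnected (Icc a b) := isPreconnected_Icc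
  have := isPreconnected_closed_iff.1 hpre {t : I | t ≤ u t} {t : I | u t ≤ t} hcl hcl'
    (fun t _ => le_total t (u t)) ⟨b, ⟨hab, le_rfl⟩, hb⟩ ⟨a, ⟨le_rfl, hab⟩, ha⟩
  obtain ⟨t, ht, h1, h2⟩ := this
  exact ⟨t, ht, le_antisymm h2 h1⟩

/-- In a convex set without periodic points, a point moved to the right by a return stays to the
right of its starting position under all multiples of this return time. -/
lemma iterate_gt {u : I → I} (hu : Continuous u) {J : Set I} (hJ : J.OrdConnected)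
    (hper : ∀ t ∈ J, t ∉ periodicPts u) {x : I} {m : ℕ} (hx : x ∈ J)
    (hm' : u^[m] x ∈ J) (hgt : x < u^[m] x) : ∀ k : ℕ, 0 < k → x < (u^[m])^[k] x := by
  intro k
  induction k with
  | zero => intro h; exact absurd h (lt_irrefl _)
  | succ k ih =>
    intro _
    rcases Nat.eq_zero_or_pos k with hk | hk
    · subst hk; simpa using hgt
    · have h1 := ih hk
      by_contra hcon
      push Not at hcon
      have hm : 0 < m := by
        rcases Nat.eq_zero_or_pos m with h | h
        · subst h; exact absurd hgt (lt_irrefl _)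
        · exact h
      have hcont : Continuous ((u^[m])^[k]) := (hu.iterate m).iterate k
      have h2 : (u^[m])^[k] (u^[m] x) ≤ u^[m] x := by
        have : (u^[m])^[k] (u^[m] x) = (u^[m])^[k + 1] x := by
          rw [Function.iterate_succ_apply]
        rw [this]
        exact hcon.trans hgt.le
      obtain ⟨t, ht, hfix⟩ := fix_between hcont hgt.le h1.le h2
      refine hper t (hJ.out hx hm' ht) ?_
      refine ⟨m * k, Nat.mul_pos hm hk, ?_⟩
      rw [← Function.iterate_mul] at hfix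
      exact hfix

lemma iterate_lt {u : I → I} (hu : Continuous u) {J : Set I} (hJ : J.OrdConnected)
    (hper : ∀ t ∈ J, t ∉ periodicPts u) {x : I} {m : ℕ} (hx : x ∈ J)
    (hm' : u^[m] x ∈ J) (hgt : u^[m] x < x) : ∀ k : ℕ, 0 < k → (u^[m])^[k] x < x := by
  intro k
  induction k with
  | zero => intro h; exact absurd h (lt_irrefl _)
  | succ k ih =>
    intro _
    rcases Nat.eq_zero_or_pos k with hk | hk
    · subst hk; simpa using hgt
    · have h1 := ih hk
      by_contra hcon
      push Not at hcon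
      have hm : 0 < m := by
        rcases Nat.eq_zero_or_pos m with h | h
        · subst h; exact absurd hgt (lt_irrefl _)
        · exact h
      have hcont : Continuous ((u^[m])^[k]) := (hu.iterate m).iterate k
      have h2 : u^[m] x ≤ (u^[m])^[k] (u^[m] x) := by
        have : (u^[m])^[k] (u^[m] x) = (u^[m])^[k + 1] x := by
          rw [Function.iterate_succ_apply]
        rw [this]
        exact hgt.le.trans hcon
      obtain ⟨t, ht, hfix⟩ := fix_between hcont hgt.le h2 h1.le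
      refine hper t (hJ.out hm' hx ht) ?_
      refine ⟨m * k, Nat.mul_pos hm hk, ?_⟩
      rw [← Function.iterate_mul] at hfix
      exact hfix

/-- In a convex set without periodic points all returns move points in the same direction. -/
lemma same_direction {u : I → I} (hu : Continuous u) {J : Set I} (hJ : J.OrdConnected)
    (hper : ∀ t ∈ J, t ∉ periodicPts u) {x y : I} {m n : ℕ} (hx : x ∈ J)
    (hxm : u^[m] x ∈ J) (hgt : x < u^[m] x) (hy : y ∈ J) (hyn : u^[n] y ∈ J)
    (hlt : u^[n] y < y) : False := by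
  have hm : 0 < m := by
    rcases Nat.eq_zero_or_pos m with h | h
    · subst h; exact absurd hgt (lt_irrefl _)
    · exact h
  have hn : 0 < n := by
    rcases Nat.eq_zero_or_pos n with h | h
    · subst h; exact absurd hlt (lt_irrefl _)
    · exact h
  have h1 : x < u^[m * n] x := by
    have := iterate_gt hu hJ hper hx hxm hgt n hn
    rwa [← Function.iterate_mul] at this
  have h2 : u^[m * n] y < y := by
    have := iterate_lt hu hJ hper hy hyn hlt m hm
    rwa [← Function.iterate_mul, Nat.mul_comm] at this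
  have hcont : Continuous (u^[m * n]) := hu.iterate _
  rcases le_total x y with hxy | hxy
  · obtain ⟨t, ht, hfix⟩ := fix_between hcont hxy h1.le h2.le
    exact hper t (hJ.out hx hy ht) ⟨m * n, Nat.mul_pos hm hn, hfix⟩
  · obtain ⟨t, ht, hfix⟩ := fix_between' hcont hxy h2.le h1.le
    exact hper t (hJ.out hy hx ht) ⟨m * n, Nat.mul_pos hm hn, hfix⟩

/-- Near a recurrent point there are periodic points. -/
lemma exists_periodic_near {u : I → I} (hu : Continuous u) {a b c : I} (hab : a < b)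
    (hbc : b < c) (hrec : ∀ n : ℕ, b ∈ closure {z | ∃ m, n < m ∧ u^[m] b = z}) :
    ∃ p ∈ Ioo a c, p ∈ periodicPts u := by
  by_contra hcon
  push Not at hcon
  have hJ : (Ioo a c).OrdConnected := ordConnected_Ioo
  have hb : b ∈ Ioo a c := ⟨hab, hbc⟩
  have hne : ∀ n : ℕ, 0 < n → u^[n] b ≠ b := fun n hn h => hcon b hb ⟨n, hn, h⟩
  -- first return
  have hret : ∀ V ∈ 𝓝 b, ∀ n : ℕ, ∃ m, n < m ∧ u^[m] b ∈ V := by
    intro V hV n
    obtain ⟨z, hzV, m, hm, hz⟩ := mem_closure_iff_nhds.1 (hrec n) V hV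
    exact ⟨m, hm, hz ▸ hzV⟩
  obtain ⟨n1, hn1, h1⟩ := hret _ (Ioo_mem_nhds hab hbc) 0
  rcases lt_or_gt_of_ne (hne n1 hn1) with hlt | hgt
  · -- moves to the left
    obtain ⟨n2, hn2, h2⟩ := hret _ (Ioo_mem_nhds hlt hbc) n1
    have hsplit : u^[n2 - n1] (u^[n1] b) = u^[n2] b := by
      rw [← Function.iterate_add_apply]
      congr 1
      omega
    refine same_direction hu hJ hcon (x := u^[n1] b) (m := n2 - n1) (y := b) (n := n1) h1 ?_ ?_
      hb h1 hlt
    · rw [hsplit]; exact ⟨h1.1.trans h2.1, h2.2⟩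
    · rw [hsplit]; exact h2.1
  · obtain ⟨n2, hn2, h2⟩ := hret _ (Ioo_mem_nhds hab hgt) n1
    have hsplit : u^[n2 - n1] (u^[n1] b) = u^[n2] b := by
      rw [← Function.iterate_add_apply]
      congr 1
      omega
    refine same_direction hu hJ hcon (x := b) (m := n1) (y := u^[n1] b) (n := n2 - n1) hb h1 hgt
      h1 ?_ ?_
    · rw [hsplit]; exact ⟨h2.1, h2.2.trans h1.2⟩
    · rw [hsplit]; exact h2.2

/-- Minimal closed invariant sets exist. -/
lemma exists_minimal {u : I → I} {S : Set I} (hS : IsClosed S) (hne : S.Nonempty)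
    (hinv : ∀ x ∈ S, u x ∈ S) :
    ∃ M : Set I, M ⊆ S ∧ IsClosed M ∧ M.Nonempty ∧ (∀ x ∈ M, u x ∈ M) ∧
      ∀ N : Set I, N ⊆ M → IsClosed N → N.Nonempty → (∀ x ∈ N, u x ∈ N) → N = M := by
  let P : Set (Set I) := {N | IsClosed N ∧ N.Nonempty ∧ ∀ x ∈ N, u x ∈ N}
  have hz := zorn_superset_nonempty P ?_ S ⟨hS, hne, hinv⟩
  · obtain ⟨M, hMS, hM⟩ := hz
    refine ⟨M, hMS, hM.prop.1, hM.prop.2.1, hM.prop.2.2, ?_⟩
    intro N hNM hNc hNne hNi
    exact Subset.antisymm hNM (hM.le_of_le ⟨hNc, hNne, hNi⟩ hNM)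
  · intro c hcP hchain hcne
    refine ⟨⋂₀ c, ⟨isClosed_sInter fun s hs => (hcP hs).1, ?_, ?_⟩, fun s hs => sInter_subset_of_mem hs⟩
    · have : Nonempty c := hcne.to_subtype
      refine IsCompact.nonempty_sInter_of_directed_nonempty_isCompact_isClosed
        (S := c) ?_ ?_ ?_ ?_
      · intro s hs t ht
        rcases hchain.total hs ht with h | h
        · exact ⟨s, hs, Subset.rfl, h⟩
        · exact ⟨t, ht, h, Subset.rfl⟩
      · exact fun s hs => (hcP hs).2.1
      · exact fun s hs => (hcP hs).1.isCompact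
      · exact fun s hs => (hcP hs).1
    · intro x hx s hs
      exact (hcP hs).2.2 x (hx s hs)

/-- Commuting continuous maps of the unit interval such that the first one is locally monotone at
all but countably many of the accumulation points of its set of fixed points have a common
periodic point. -/
theorem interval_case {φ ψ : I → I} (hφ : Continuous φ) (hψ : Continuous ψ)
    (hc : Function.Commute φ ψ)
    (hcount : {x | AccPt x (𝓟 {t | φ t = t}) ∧ ¬ LocMono φ x}.Countable) :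
    (periodicPts φ ∩ periodicPts ψ).Nonempty := by
  have hfixcl : IsClosed {x | φ x = x} := isClosed_eq hφ continuous_id
  have hfixne : {x | φ x = x}.Nonempty := by
    obtain ⟨t, -, ht⟩ := fix_between (a := 0) (b := 1) hφ (unitInterval.nonneg 1) (unitInterval.nonneg _)
      (unitInterval.le_one _)
    exact ⟨t, ht⟩
  have hfixinv : ∀ x ∈ {x | φ x = x}, ψ x ∈ {x | φ x = x} := by
    intro x hx
    have h1 : φ (ψ x) = ψ (φ x) := hc x
    rw [mem_ofPred_eq] at hx ⊢
    rw [h1, hx]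
  obtain ⟨M, hMS, hMc, hMne, hMi, hMmin⟩ := exists_minimal hfixcl hfixne hfixinv
  have hMit : ∀ x ∈ M, ∀ m : ℕ, ψ^[m] x ∈ M := by
    intro x hx m
    induction m with
    | zero => exact hx
    | succ m ih => rw [Function.iterate_succ_apply']; exact hMi _ ih
  have hrec : ∀ b ∈ M, ∀ n : ℕ, b ∈ closure {z | ∃ m, n < m ∧ ψ^[m] b = z} := by
    intro b hb n
    have hsub : {z | ∃ m, n < m ∧ ψ^[m] b = z} ⊆ M := by
      rintro z ⟨m, -, rfl⟩
      exact hMit b hb m
    have := hMmin (closure {z | ∃ m, n < m ∧ ψ^[m] b = z}) (closure_minimal hsub hMc)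
      isClosed_closure ⟨ψ^[n + 1] b, subset_closure ⟨n + 1, Nat.lt_succ_self n, rfl⟩⟩ ?_
    · rw [this]; exact hb
    · have hmaps : MapsTo ψ {z | ∃ m, n < m ∧ ψ^[m] b = z} {z | ∃ m, n < m ∧ ψ^[m] b = z} := by
        rintro z ⟨m, hm, rfl⟩
        exact ⟨m + 1, hm.trans (Nat.lt_succ_self m), Function.iterate_succ_apply' ψ m b⟩
      exact fun x hx => hmaps.closure hψ hx
  by_cases hper : ∃ x ∈ M, x ∈ periodicPts ψ
  · obtain ⟨x, hx, hxp⟩ := hper
    exact ⟨x, ⟨1, one_pos, hMS hx⟩, hxp⟩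
  push Not at hper
  have hacc : ∀ x ∈ M, ∀ U ∈ 𝓝 x, ∃ y ∈ U ∩ M, y ≠ x := by
    intro x hx U hU
    obtain ⟨z, hzU, m, hm, hz⟩ := mem_closure_iff_nhds.1 (hrec x hx 0) U hU
    refine ⟨z, ⟨hzU, hz ▸ hMit x hx m⟩, ?_⟩
    intro h
    exact hper x hx ⟨m, hm, hz.trans h⟩
  have hperf : Perfect M := ⟨hMc, fun x hx => accPt_iff_nhds.2 (hacc x hx)⟩
  have hunc : ¬ M.Countable := by
    intro hMcount
    obtain ⟨f, hfM, -, hfinj⟩ := hperf.exists_nat_bool_injection hMne
    have h1 : (range f).Countable := hMcount.mono hfM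
    have h2 : (univ : Set (ℕ → Bool)).Countable := by
      rw [← Set.image_univ] at h1
      exact (Set.countable_of_injective_of_countable_image (hfinj.injOn) h1)
    have h3 : Countable (ℕ → Bool) := Set.countable_univ_iff.1 h2
    obtain ⟨g, hg⟩ := exists_surjective_nat (ℕ → Bool)
    obtain ⟨n, hn⟩ := hg fun n => !(g n n)
    have := congrFun hn n
    simp at this
  obtain ⟨x, hxM, hxmono⟩ : ∃ x ∈ M, LocMono φ x := by
    by_contra hcon
    push Not at hcon
    refine hunc (hcount.mono fun x hx => ?_)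
    exact ⟨(hperf.acc x hx).mono (principal_mono.2 hMS), hcon x hx⟩
  obtain ⟨U, hU, hUm⟩ := hxmono
  obtain ⟨b', c', hxb, hbn, hbU⟩ := exists_Icc_mem_subset_of_mem_nhds hU
  have hSc : IsCompact (M ∩ Icc b' c') := (hMc.inter isClosed_Icc).isCompact
  have hSinf : (M ∩ Icc b' c').Infinite := by
    intro hfin
    have hfin' : ((M ∩ Icc b' c') \ {x}).Finite := hfin.subset sdiff_subset
    have hnb : (((M ∩ Icc b' c') \ {x})ᶜ ∩ Icc b' c') ∈ 𝓝 x :=
      inter_mem (hfin'.isClosed.isOpen_compl.mem_nhds (by simp)) hbn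
    obtain ⟨y, ⟨⟨hy1, hy2⟩, hyM⟩, hyne⟩ := hacc x hxM _ hnb
    exact hy1 ⟨⟨hyM, hy2⟩, hyne⟩
  obtain ⟨a, haS, ha⟩ := hSc.exists_isLeast hSinf.nonempty
  obtain ⟨c, hcS, hcg⟩ := hSc.exists_isGreatest hSinf.nonempty
  obtain ⟨b, hbS, hb⟩ : ∃ b ∈ M ∩ Icc b' c', b ∉ ({a, c} : Set I) := by
    by_contra hcon
    push Not at hcon
    exact hSinf ((Set.toFinite ({a, c} : Set I)).subset fun t ht => hcon t ht)
  have hab : a < b := lt_of_le_of_ne (ha hbS) fun h => hb (by simp [h])
  have hbc : b < c := lt_of_le_of_ne (hcg hbS) fun h => hb (by simp [h])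
  have hsubU : Icc a c ⊆ U := fun t ht => hbU ⟨haS.2.1.trans ht.1, ht.2.trans hcS.2.2⟩
  have haf : φ a = a := hMS haS.1
  have hcf : φ c = c := hMS hcS.1
  have hac : a ≤ c := (hab.trans hbc).le
  have hmono : MonotoneOn φ (Icc a c) := by
    rcases hUm with h | h
    · exact h.mono hsubU
    · exfalso
      have := h (hsubU ⟨le_rfl, hac⟩) (hsubU ⟨hac, le_rfl⟩) hac
      rw [haf, hcf] at this
      exact absurd (hab.trans hbc) (not_lt.2 this)
  have hmaps : ∀ t ∈ Icc a c, φ t ∈ Icc a c := by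
    intro t ht
    have h1 := hmono ⟨le_rfl, hac⟩ ht ht.1
    have h2 := hmono ht ⟨hac, le_rfl⟩ ht.2
    rw [haf] at h1
    rw [hcf] at h2
    exact ⟨h1, h2⟩
  obtain ⟨p, hp, k, hk, hpk⟩ := exists_periodic_near hψ hab hbc (hrec b hbS.1)
  have hpk' : ψ^[k] p = p := hpk
  have hcomm : ∀ t, ψ^[k] (φ t) = φ (ψ^[k] t) := fun t => (hc.iterate_right k).symm t
  have hfixk : IsClosed {t | ψ^[k] t = t} := isClosed_eq (hψ.iterate k) continuous_id
  have key : ∃ y, φ y = y ∧ ψ^[k] y = y := by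
    rcases le_total p (φ p) with hle | hle
    · have hAc : IsCompact (Icc a c ∩ ({t | ψ^[k] t = t} ∩ {t | t ≤ φ t})) :=
        isCompact_Icc.inter_right (hfixk.inter (isClosed_le continuous_id hφ))
      obtain ⟨y, hyA, hy⟩ := hAc.exists_isGreatest ⟨p, Ioo_subset_Icc_self hp, hpk', hle⟩
      refine ⟨y, le_antisymm (hy ⟨hmaps y hyA.1, ?_, ?_⟩) hyA.2.2, hyA.2.1⟩
      · rw [mem_ofPred_eq, hcomm, hyA.2.1]
      · exact hmono hyA.1 (hmaps y hyA.1) hyA.2.2
    · have hAc : IsCompact (Icc a c ∩ ({t | ψ^[k] t = t} ∩ {t | φ t ≤ t})) :=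
        isCompact_Icc.inter_right (hfixk.inter (isClosed_le hφ continuous_id))
      obtain ⟨y, hyA, hy⟩ := hAc.exists_isLeast ⟨p, Ioo_subset_Icc_self hp, hpk', hle⟩
      refine ⟨y, le_antisymm hyA.2.2 (hy ⟨hmaps y hyA.1, ?_, ?_⟩), hyA.2.1⟩
      · rw [mem_ofPred_eq, hcomm, hyA.2.1]
      · exact hmono (hmaps y hyA.1) hyA.1 hyA.2.2
  obtain ⟨y, hy1, hy2⟩ := key
  exact ⟨y, ⟨1, one_pos, hy1⟩, ⟨k, hk, hy2⟩⟩

end Pool.Agent.MP_97b1c0_an
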