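import Pool.Agent.MP_97b1c0_an.LocMono

set_option autoImplicit false

namespace Pool.Agent.MP_97b1c0_an

open Set Filter Topology Function unitInterval

/-- A self-map of the unit interval is continuously differentiable at (that is, near) a point `x`
if near `x` it agrees with a function on the reals that is continuously differentiable near `x`. -/
def C1At (u : I → I) (x : I) : Prop :=
  ∃ v : ℝ → ℝ, ContDiffAt ℝ 1 v (x : ℝ) ∧ ∀ᶠ t : I in 𝓝 x, v (t : ℝ) = (u t : ℝ)

lemma C1At.comp {u v : I → I} {x : I} (hu : C1At u x) (hc : Continuous u)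
    (hv : C1At v (u x)) : C1At (v ∘ u) x := by
  obtain ⟨U, hU, hUe⟩ := hu
  obtain ⟨V, hV, hVe⟩ := hv
  have hx : U (x : ℝ) = (u x : ℝ) := hUe.self_of_nhds
  refine ⟨V ∘ U, ?_, ?_⟩
  · refine ContDiffAt.comp (x : ℝ) ?_ hU
    rw [hx]; exact hV
  · have h2 : ∀ᶠ t : I in 𝓝 x, V ((u t : I) : ℝ) = (v (u t) : ℝ) :=
      hc.continuousAt.eventually hVe
    filter_upwards [hUe, h2] with t h1 h2
    rw [Function.comp_apply, h1, h2]
    rfl

/-- At an accumulation point of its fixed points a continuously differentiable map is locally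
monotone. -/
lemma C1At.locMono {u : I → I} {x : I} (h : C1At u x) (hxx : u x = x)
    (hacc : AccPt x (𝓟 {t | u t = t})) : LocMono u x := by
  obtain ⟨v, hv, hve⟩ := h
  have hx : v (x : ℝ) = (x : ℝ) := by rw [hve.self_of_nhds, hxx]
  have hs : HasStrictDerivAt v (deriv v x) (x : ℝ) := hv.hasStrictDerivAt (by simp)
  have hd : deriv v (x : ℝ) = 1 := by
    have hslope := hasDerivAt_iff_tendsto_slope.1 hs.hasDerivAt
    have hfr : ∃ᶠ t : I in 𝓝[≠] x, t ∈ {t | u t = t} := accPt_iff_frequently_nhdsNE.1 hacc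
    have htend : Tendsto (fun t : I => (t : ℝ)) (𝓝[≠] x) (𝓝[≠] (x : ℝ)) := by
      refine tendsto_nhdsWithin_of_tendsto_nhds_of_eventually_within _
        (continuous_subtype_val.continuousAt.tendsto.mono_left nhdsWithin_le_nhds) ?_
      filter_upwards [self_mem_nhdsWithin] with t ht
      exact fun h => ht (Subtype.ext h)
    have hcomp := hslope.comp htend
    by_contra hne
    have hev : ∀ᶠ t : I in 𝓝[≠] x, (slope v (x : ℝ) ∘ fun t : I => (t : ℝ)) t ≠ 1 :=
      hcomp.eventually (isOpen_ne.mem_nhds hne)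
    have hve' : ∀ᶠ t : I in 𝓝[≠] x, v (t : ℝ) = (u t : ℝ) := nhdsWithin_le_nhds hve
    obtain ⟨t, ht, h1, h2, h3⟩ := (hfr.and_eventually (hev.and (hve'.and self_mem_nhdsWithin))).exists
    have ht' : u t = t := ht
    have htx : (t : ℝ) - (x : ℝ) ≠ 0 := by
      intro h
      exact h3 (Subtype.ext (sub_eq_zero.1 h))
    apply h1
    rw [Function.comp_apply, slope_def_field, h2, ht', hx, div_self htx]
  rw [hd] at hs
  have hlo := hs.hasStrictFDerivAt.isLittleO.def (c := 1 / 2) (by norm_num)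
  rw [nhds_prod_eq] at hlo
  obtain ⟨T, hT, hTp⟩ := Filter.eventually_prod_self_iff'.1 hlo
  refine ⟨{t : I | (t : ℝ) ∈ T} ∩ {t : I | v (t : ℝ) = (u t : ℝ)}, inter_mem
    (continuous_subtype_val.continuousAt hT) hve, Or.inl ?_⟩
  rintro a ⟨ha, hav⟩ b ⟨hb, hbv⟩ hab
  have hab' : (a : ℝ) ≤ (b : ℝ) := hab
  have h1 := hTp _ hb _ ha
  rw [← Subtype.coe_le_coe]
  have hav' : v (a : ℝ) = (u a : ℝ) := hav
  have hbv' : v (b : ℝ) = (u b : ℝ) := hbv
  rw [← hav', ← hbv']
  simp only [ContinuousLinearMap.toSpanSingleton_apply, smul_eq_mul, mul_one,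
    Real.norm_eq_abs] at h1
  rw [abs_of_nonneg (sub_nonneg.2 hab')] at h1
  have h2 := (abs_le.1 h1).1
  linarith

end Pool.Agent.MP_97b1c0_an
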