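import Mathlib
import Pool.Agent.MP_97b1c0_an.Interval

/-!
From the interval to triangular maps of the square.
-/

namespace Pool.Agent.MP_97b1c0_an

open Set Function Filter Topology unitInterval

/-- A continuous self-map of the unit interval has a fixed point. -/
lemma exists_fixed {φ : I → I} (hφ : Continuous φ) : ∃ y, φ y = y := by
  obtain ⟨y, -, hy⟩ := isPreconnected_univ.intermediate_value₂ (α := ℝ) (s := (univ : Set I))
    (mem_univ (0 : I)) (mem_univ (1 : I))
    (f := fun y : I => (y : ℝ)) (g := fun y : I => ((φ y : I) : ℝ))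
    continuous_subtype_val.continuousOn (continuous_subtype_val.comp hφ).continuousOn
    (φ 0).2.1 (φ 1).2.2
  exact ⟨y, Subtype.ext hy.symm⟩

/-- Triangular maps of the square. -/
def Tri (T : I × I → I × I) : Prop := ∀ p q : I × I, p.1 = q.1 → (T p).1 = (T q).1

/-- The base map. -/
def base (T : I × I → I × I) : I → I := fun x => (T (x, 0)).1

/-- The second coordinate of the `n`-th iterate on the fibre over `x`. -/
def fib (T : I × I → I × I) (n : ℕ) (x : I) : I → I := fun y => (T^[n] (x, y)).2

lemma continuous_base {T : I × I → I × I} (hT : Continuous T) : Continuous (base T) :=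
  continuous_fst.comp (hT.comp (continuous_id.prodMk continuous_const))

lemma continuous_fib {T : I × I → I × I} (hT : Continuous T) (n : ℕ) (x : I) :
    Continuous (fib T n x) :=
  continuous_snd.comp ((hT.iterate n).comp (continuous_const.prodMk continuous_id))

lemma fst_eq {T : I × I → I × I} (h : Tri T) (p : I × I) : (T p).1 = base T p.1 := h _ _ rfl

lemma fst_iterate {T : I × I → I × I} (h : Tri T) (n : ℕ) (p : I × I) :
    (T^[n] p).1 = (base T)^[n] p.1 := by
  induction n with
  | zero => rfl
  | succ n ih => rw [iterate_succ_apply', iterate_succ_apply', fst_eq h, ih]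

lemma iterate_fib {T : I × I → I × I} (h : Tri T) {n : ℕ} {x : I} (hx : (base T)^[n] x = x)
    (y : I) : T^[n] (x, y) = (x, fib T n x y) :=
  Prod.ext (by rw [fst_iterate h]; exact hx) rfl

lemma iterate_mul_fib {T : I × I → I × I} (h : Tri T) {n : ℕ} {x : I}
    (hx : (base T)^[n] x = x) (k : ℕ) (y : I) :
    T^[n * k] (x, y) = (x, (fib T n x)^[k] y) := by
  induction k generalizing y with
  | zero => rfl
  | succ k ih =>
    rw [Nat.mul_succ, iterate_add_apply, iterate_fib h hx, ih, ← iterate_succ_apply]

lemma commute_base {F G : I × I → I × I} (hF : Tri F) (hG : Tri G) (hc : F ∘ G = G ∘ F) :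
    base F ∘ base G = base G ∘ base F := by
  funext x
  have h1 : (F (G (x, 0))).1 = (G (F (x, 0))).1 := congrArg Prod.fst (congrFun hc (x, 0))
  rw [fst_eq hF, fst_eq hG, fst_eq hG, fst_eq hF] at h1
  exact h1

/-- Periods of the base map. -/
lemma base_periods {G : I × I → I × I} (hG : Continuous G) (hGt : Tri G)
    (hper : ∀ p ∈ periodicPts G, ∃ k : ℕ, minimalPeriod G p = 2 ^ k) :
    ∀ x ∈ periodicPts (base G), ∃ k : ℕ, minimalPeriod (base G) x = 2 ^ k := by
  intro x hx
  have hpos := minimalPeriod_pos_of_mem_periodicPts hx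
  have hxn : (base G)^[minimalPeriod (base G) x] x = x := isPeriodicPt_minimalPeriod (base G) x
  obtain ⟨y, hy⟩ := exists_fixed (continuous_fib hG (minimalPeriod (base G) x) x)
  have h1 : G^[minimalPeriod (base G) x] (x, y) = (x, y) := by rw [iterate_fib hGt hxn, hy]
  have h2 : (x, y) ∈ periodicPts G := ⟨_, hpos, h1⟩
  obtain ⟨k, hk⟩ := hper _ h2
  refine ⟨k, ?_⟩
  rw [← hk]
  apply Nat.dvd_antisymm
  · apply IsPeriodicPt.minimalPeriod_dvd
    have h3 : G^[minimalPeriod G (x, y)] (x, y) = (x, y) := isPeriodicPt_minimalPeriod G (x, y)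
    have h4 := congrArg Prod.fst h3
    rw [fst_iterate hGt] at h4
    exact h4
  · exact IsPeriodicPt.minimalPeriod_dvd h1

/-- Commuting triangular maps, one of which has only periods that are powers of two. -/
theorem square_aux {F G : I × I → I × I} (hF : Continuous F) (hG : Continuous G)
    (hFt : Tri F) (hGt : Tri G) (hc : F ∘ G = G ∘ F)
    (hper : ∀ p ∈ periodicPts G, ∃ k : ℕ, minimalPeriod G p = 2 ^ k) :
    (periodicPts F ∩ periodicPts G).Nonempty := by
  obtain ⟨x, ⟨a, ha, hxa⟩, ⟨b, hb, hxb⟩⟩ := interval_unit (continuous_base hF) (continuous_base hG)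
    (commute_base hFt hGt hc) (base_periods hG hGt hper)
  have hxa' : (base F)^[a] x = x := hxa
  have hxb' : (base G)^[b] x = x := hxb
  have hcomm : ∀ p, F^[a] (G^[b] p) = G^[b] (F^[a] p) := fun p => by
    have h1 : Function.Commute F G := fun p => congrFun hc p
    exact (h1.iterate_iterate a b) p
  have hfc : fib F a x ∘ fib G b x = fib G b x ∘ fib F a x := by
    funext y
    have h1 := hcomm (x, y)
    rw [iterate_fib hGt hxb', iterate_fib hFt hxa', iterate_fib hFt hxa',
      iterate_fib hGt hxb'] at h1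
    exact (Prod.ext_iff.mp h1).2
  obtain ⟨y, ⟨i, hi, hyi⟩, ⟨j, hj, hyj⟩⟩ := interval_unit (continuous_fib hF a x)
    (continuous_fib hG b x) hfc (by
      rintro y ⟨n, hn, hy⟩
      have h1 : (x, y) ∈ periodicPts G := by
        refine ⟨b * n, by positivity, ?_⟩
        show G^[b * n] (x, y) = (x, y)
        rw [iterate_mul_fib hGt hxb']
        exact Prod.ext rfl hy
      obtain ⟨k, hk⟩ := hper _ h1
      have h2 : minimalPeriod (fib G b x) y ∣ 2 ^ k := by
        apply IsPeriodicPt.minimalPeriod_dvd
        have h3 : G^[b * 2 ^ k] (x, y) = (x, y) := by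
          have h4 : IsPeriodicPt G (2 ^ k) (x, y) := by
            rw [← hk]; exact isPeriodicPt_minimalPeriod G (x, y)
          exact h4.const_mul b
        rw [iterate_mul_fib hGt hxb'] at h3
        exact congrArg Prod.snd h3
      obtain ⟨l, -, hl⟩ := (Nat.dvd_prime_pow Nat.prime_two).mp h2
      exact ⟨l, hl⟩)
  refine ⟨(x, y), ⟨a * i, by positivity, ?_⟩, ⟨b * j, by positivity, ?_⟩⟩
  · show F^[a * i] (x, y) = (x, y)
    rw [iterate_mul_fib hFt hxa']
    exact Prod.ext rfl hyi
  · show G^[b * j] (x, y) = (x, y)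
    rw [iterate_mul_fib hGt hxb']
    exact Prod.ext rfl hyj

/-- A point that is periodic for `F` and for `F^a G^b`, `b > 0`, is periodic for `G`. -/
lemma periodic_of_composite {X : Type*} {F G : X → X} (hc : F ∘ G = G ∘ F) {a b : ℕ} (hb : 0 < b)
    {x : X} (h1 : x ∈ periodicPts F) (h2 : x ∈ periodicPts (F^[a] ∘ G^[b])) :
    x ∈ periodicPts G := by
  obtain ⟨n, hn, hx⟩ := h1
  obtain ⟨m, hm, hx'⟩ := h2
  have hcomm : Function.Commute F G := fun p => congrFun hc p
  have h3 : (F^[a] ∘ G^[b])^[m * n] x = x := (hx'.mul_const n : _)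
  have h4 : (F^[a] ∘ G^[b])^[m * n] = F^[a * (m * n)] ∘ G^[b * (m * n)] := by
    rw [Function.Commute.comp_iterate (hcomm.iterate_iterate a b), ← iterate_mul, ← iterate_mul]
  rw [h4, comp_apply] at h3
  refine ⟨b * (m * n), by positivity, ?_⟩
  have h5 : F^[a * (m * n)] (G^[b * (m * n)] x) = G^[b * (m * n)] x := by
    have h6 := (hcomm.iterate_iterate (a * (m * n)) (b * (m * n))) x
    rw [h6]
    congr 1
    have h7 : IsPeriodicPt F (a * (m * n)) x := by
      rw [show a * (m * n) = (a * m) * n by ring]
      exact hx.const_mul _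
    exact h7
  rw [h5] at h3
  exact h3

lemma tri_iterate {T : I × I → I × I} (h : Tri T) (n : ℕ) : Tri T^[n] := fun p q hpq => by
  rw [fst_iterate h, fst_iterate h, hpq]

lemma tri_comp {S T : I × I → I × I} (hS : Tri S) (hT : Tri T) : Tri (S ∘ T) := fun _ _ hpq =>
  hS _ _ (hT _ _ hpq)

/-- The theorem for triangular maps. -/
theorem square {F G : I × I → I × I} (hF : Continuous F) (hG : Continuous G)
    (hFt : Tri F) (hGt : Tri G) (hc : F ∘ G = G ∘ F) (a b : ℕ) (hab : 0 < a + b)
    (hper : ∀ p ∈ periodicPts (F^[a] ∘ G^[b]), ∃ k : ℕ,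
      minimalPeriod (F^[a] ∘ G^[b]) p = 2 ^ k) :
    (periodicPts F ∩ periodicPts G).Nonempty := by
  have hcomm : Function.Commute F G := fun p => congrFun hc p
  rcases Nat.eq_zero_or_pos b with hb | hb
  · have ha : 0 < a := by omega
    have h1 : G^[b] ∘ F^[a] = F^[a] ∘ G^[b] := by
      funext p
      exact ((hcomm.iterate_iterate a b) p).symm
    rw [← h1] at hper
    obtain ⟨p, hp1, hp2⟩ := square_aux (F := G) (G := G^[b] ∘ F^[a]) hG
      ((hG.iterate b).comp (hF.iterate a)) hGt (tri_comp (tri_iterate hGt b) (tri_iterate hFt a))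
      (by
        funext p
        simp only [comp_apply]
        rw [← iterate_succ_apply' G b, iterate_succ_apply G b]
        congr 1
        exact (hcomm.symm.iterate_right a) p) hper
    exact ⟨p, periodic_of_composite hc.symm ha hp1 hp2, hp1⟩
  · obtain ⟨p, hp1, hp2⟩ := square_aux (F := F) (G := F^[a] ∘ G^[b]) hF
      ((hF.iterate a).comp (hG.iterate b)) hFt (tri_comp (tri_iterate hFt a) (tri_iterate hGt b))
      (by
        funext p
        simp only [comp_apply]
        rw [← iterate_succ_apply' F a, iterate_succ_apply F a]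
        congr 1
        exact (hcomm.iterate_right b) p) hper
    exact ⟨p, hp1, periodic_of_composite hc hb hp1 hp2⟩

/-- The theorem for maps of the interval. -/
theorem interval {f g : I → I} (hf : Continuous f) (hg : Continuous g) (hc : f ∘ g = g ∘ f)
    (a b : ℕ) (hab : 0 < a + b)
    (hper : ∀ x ∈ periodicPts (f^[a] ∘ g^[b]), ∃ k : ℕ,
      minimalPeriod (f^[a] ∘ g^[b]) x = 2 ^ k) :
    (periodicPts f ∩ periodicPts g).Nonempty := by
  have hcomm : Function.Commute f g := fun p => congrFun hc p
  rcases Nat.eq_zero_or_pos b with hb | hb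
  · have ha : 0 < a := by omega
    have h1 : g^[b] ∘ f^[a] = f^[a] ∘ g^[b] := by
      funext p
      exact ((hcomm.iterate_iterate a b) p).symm
    rw [← h1] at hper
    obtain ⟨p, hp1, hp2⟩ := interval_unit (f := g) (g := g^[b] ∘ f^[a]) hg
      ((hg.iterate b).comp (hf.iterate a))
      (by
        funext p
        simp only [comp_apply]
        rw [← iterate_succ_apply' g b, iterate_succ_apply g b]
        congr 1
        exact (hcomm.symm.iterate_right a) p) hper
    exact ⟨p, periodic_of_composite hc.symm ha hp1 hp2, hp1⟩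
  · obtain ⟨p, hp1, hp2⟩ := interval_unit (f := f) (g := f^[a] ∘ g^[b]) hf
      ((hf.iterate a).comp (hg.iterate b))
      (by
        funext p
        simp only [comp_apply]
        rw [← iterate_succ_apply' f a, iterate_succ_apply f a]
        congr 1
        exact (hcomm.iterate_right b) p) hper
    exact ⟨p, hp1, periodic_of_composite hc hb hp1 hp2⟩

end Pool.Agent.MP_97b1c0_an
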